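import Pool.Agent.H962.Delaunay
import Pool.Agent.H962.KFin

/-!
# The stretch factor of planar Delaunay triangulations is at most 1.6046
-/

set_option autoImplicit false

namespace Pool.Agent.Results.MP_74021c_co.StretchUpper

open Pool.Agent.H962

/-- Every Delaunay triangulation of a finite planar point set is a `1.6046`-spanner. -/
theorem result (S : Finset Plane) (K : Geometry.SimplicialComplex ℝ Plane) (hK : IsDelaunay S K)
    (u v : Plane) (hu : u ∈ S) (hv : v ∈ S) :
    ∃ w : (edgeGraph K).Walk u v, walkLength w ≤ (16046 / 10000 : ℝ) * dist u v := by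
  obtain ⟨W, hW⟩ := KD.kok.potSys
  have e1 : (KD.tN : ℝ) = 16046 := by exact_mod_cast (rfl : KD.tN = 16046)
  have e : ((KD.tN : ℝ) / 10000) = 16046 / 10000 := by rw [e1]
  rw [e] at hW
  exact spanner_of_potSys hW (by norm_num) hK hu hv

end Pool.Agent.Results.MP_74021c_co.StretchUpper
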